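import Pool.Agent.Y678.AU.Gen
import Pool.Agent.W869.AV.Iso

/-!
# Isomorphisms between `P(Λ)/I_κ` and `P(Λ')/I_κ`: all cardinalities
-/

set_option autoImplicit false
set_option linter.unusedSectionVars false
set_option linter.unusedVariables false
set_option linter.style.haveILetI false

universe u

namespace Pool.Agent.Y678.AI

open Set
open Cardinal hiding univ
open Pool.Agent.Y678.AU
open Pool.Agent.W869.AV hiding few_meet card_of_trace few_down exists_many card_G card_F card_union card_al exists_split few_up few_exact few_members tr_univ tr_of_card card_G_local exists_nontrivial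

section

variable {κ μ : Cardinal.{u}} {Λ : Type u} [Fact (ℵ₀ ≤ κ)]

theorem local_mono (hκ : ℵ₀ ≤ κ) {π : Aut κ Λ} {V W : Set Λ}
    (hπ : ∀ Y ⊆ π.G V, #Y = κ → Tr π Y) (hWV : W ⊆ V) : ∀ Y ⊆ π.G W, #Y = κ → Tr π Y := by
  intro Y hY hYc
  have h1 : Al κ (π.G W) (π.G V) := by
    rw [π.le_iff]
    exact ((π.FG W).trans hκ (Al.of_subset hWV)).trans hκ (π.FG' V)
  have h2 : Sm κ (Y \ π.G V : Set Λ) := sm_mono (sdiff_subset_sdiff_left hY) h1
  refine Tr.of_remove hκ (N := Y \ π.G V) ?_ ⟨id, good_of_small hκ h2⟩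
  have h3 : ¬ Sm κ (Y ∩ π.G V : Set Λ) := by
    intro h
    refine not_small_of hYc (sm_mono ?_ (sm_union hκ h2 h))
    intro x hx
    by_cases hxV : x ∈ π.G V
    · exact Or.inr ⟨hx, hxV⟩
    · exact Or.inl ⟨hx, hxV⟩
  have h4 : #(Y ∩ π.G V : Set Λ) = κ := le_antisymm
    ((Cardinal.mk_le_mk_of_subset inter_subset_left).trans hYc.le) (not_lt.1 h3)
  obtain ⟨e, he⟩ := hπ _ inter_subset_right h4
  refine ⟨e, he.mono ?_⟩
  rintro x ⟨hx, hx'⟩
  refine ⟨hx, ?_⟩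
  by_contra h
  exact hx' ⟨hx, h⟩

section

variable (hκ : ℵ₀ ≤ κ) (hμ : κ ≤ μ) {π : Aut κ Λ} {e E : Λ → Λ}

include hκ hμ

/-- The main lemma, for families of subsets of the preimage of a set `V`. -/
theorem few_down_local {V : Set Λ} {K : Type u} [LinearOrder K] [WellFoundedLT K] {g g' : Λ → K} {N : Set Λ}
    (ha : ∀ y, y ∉ N → y ∈ π.F {x | g x = g' y})
    (hb : ∀ Z : K → Set Λ, (∀ m, Sm κ (Z m)) → (∀ m, ∀ y ∈ Z m, g' y = m ∧ y ∉ N ∧ y ∈ V) →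
      #(π.G (V ∩ N ∪ ⋃ m, Z m)) ≤ μ)
    {S : Set (Set Λ)} (hd : ∀ Y ∈ S, ∀ Y' ∈ S, Y ≠ Y' → Disjoint Y Y')
    (hE : ∀ Y ∈ S, Good π E Y) (hSV : ∀ Y ∈ S, Y ⊆ π.G V) :
    #{Y ∈ S | ¬ Sm κ {x ∈ Y | g' (E x) < g x}} ≤ μ := by
  obtain ⟨A, hA⟩ := exists_rec g g' E π.F
  let Z : K → Set Λ := fun m =>
    {y | g' y = m ∧ y ∉ N ∧ y ∈ V ∧ ¬ (y ∈ π.F A ↔ y ∈ π.F {z ∈ A | g z = m})}
  have hZs : ∀ m, Sm κ (Z m) := by
    intro m
    have h1 : Al κ (π.F {z ∈ A | g z = m}) (π.F A) :=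
      (π.le_iff _ _).1 (Al.of_subset fun x hx => hx.1)
    have h2 : Sm κ ((π.F A ∩ π.F {x | g x = m}) \ π.F (A ∩ {x | g x = m}) : Set Λ) :=
      inter_F hκ A {x | g x = m}
    refine sm_mono ?_ (sm_union hκ h1 h2)
    rintro y ⟨hy, hyN, -, hne⟩
    have h3 : y ∈ π.F {x | g x = m} := hy ▸ ha y hyN
    by_cases h4 : y ∈ π.F A
    · refine Or.inr ⟨⟨h4, h3⟩, fun h5 => hne ⟨fun _ => h5, fun _ => h4⟩⟩
    · by_cases h5 : y ∈ π.F {z ∈ A | g z = m}
      · exact Or.inl ⟨h5, h4⟩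
      · exact (hne ⟨fun h => (h4 h).elim, fun h => (h5 h).elim⟩).elim
  have hU := hb Z hZs fun m y hy => ⟨hy.1, hy.2.1, hy.2.2.1⟩
  refine le_trans (Cardinal.mk_le_mk_of_subset ?_) (few_meet hκ hμ hd hU)
  rintro Y ⟨hY, hns⟩
  refine ⟨hY, ?_⟩
  by_contra hcon
  apply hns
  have h1 := (hE Y hY).side' hκ (V ∩ N ∪ ⋃ m, Z m)
  have h1' := (hE Y hY).side' hκ V
  have h2 := (hE Y hY).side hκ A
  refine sm_mono ?_ (sm_union hκ h1 (sm_union hκ h1' h2))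
  rintro x ⟨hx, hlt⟩
  have h3 : x ∉ π.G (V ∩ N ∪ ⋃ m, Z m) := fun h => hcon ⟨x, hx, h⟩
  by_cases h4 : E x ∈ V ∩ N ∪ ⋃ m, Z m
  · exact Or.inl ⟨hx, fun h => h3 (h.2 h4)⟩
  by_cases hxV : E x ∈ V
  · refine Or.inr (Or.inr ⟨hx, fun h5 => ?_⟩)
    have h6 : E x ∉ N := fun h => h4 (Or.inl ⟨hxV, h⟩)
    have h7 : E x ∈ π.F A ↔ E x ∈ π.F {z ∈ A | g z = g' (E x)} := by
      by_contra h8
      exact h4 (Or.inr (mem_iUnion.2 ⟨g' (E x), rfl, h6, hxV, h8⟩))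
    have h8 := hA x
    by_cases h9 : x ∈ A
    · exact (h8.1 h9).2 (h7.1 (h5.1 h9))
    · refine h9 (h8.2 ⟨hlt, fun h10 => h9 (h5.2 (h7.2 h10))⟩)
  · exact Or.inr (Or.inl ⟨hx, fun h => hxV (h.1 (hSV Y hY hx))⟩)

end

/-- If the automorphism is trivial on the subsets of size `κ` of the preimage of a set of size at
most `μ` then the preimage has size at most `μ`. -/
theorem card_G_local (hκ : ℵ₀ ≤ κ) {π : Aut κ Λ} (μ : Cardinal.{u}) :
    κ ≤ μ → ∀ V : Set Λ, (∀ Y ⊆ π.G V, #Y = κ → Tr π Y) → #V ≤ μ → #(π.G V) ≤ μ := by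
  classical
  induction μ using WellFoundedLT.induction with
  | ind μ ih =>
  intro hμ V hπ hV
  rcases hμ.eq_or_lt with heq | hlt
  · subst heq
    exact Pool.Agent.W869.AV.card_G_local hκ hπ hV
  have hG : ∀ W : Set Λ, W ⊆ V → #W < μ → #(π.G W) ≤ μ := by
    intro W hWV hW
    exact (ih (max #W κ) (max_lt hW hlt) (le_max_right _ _) W (local_mono hκ hπ hWV)
      (le_max_left _ _)).trans (max_le hW.le hμ)
  have hIic : ∀ i : μ.ord.ToType, #(Iic i) < μ := by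
    intro i
    have h5 := Cardinal.mk_Iic_lt i (by
      rw [Cardinal.mk_ord_toType]
      exact (Ordinal.type_toType _).symm) (by rw [Cardinal.mk_ord_toType]; exact hκ.trans hμ)
    rwa [Cardinal.mk_ord_toType] at h5
  have hK : #(μ.ord.ToType) ≤ μ := (Cardinal.mk_ord_toType μ).le
  by_contra hcon
  obtain ⟨S, hS, hd, hSc⟩ := exists_many hκ hμ hcon
  obtain ⟨E, hE⟩ := family_fun hκ (π := π) (P := fun _ _ => True) hd (by
    intro Y hY
    obtain ⟨e, he⟩ := hπ Y (hS Y hY).1 (hS Y hY).2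
    exact ⟨(hS Y hY).2, e, he, fun _ _ => trivial⟩)
  obtain ⟨v, hv⟩ : ∃ v : Λ → μ.ord.ToType, ∀ n, #{y ∈ V | v y ≤ n} < μ := by
    have h2 : #V ≤ #(μ.ord.ToType) := by rw [Cardinal.mk_ord_toType]; exact hV
    obtain ⟨r⟩ := h2
    haveI : Nonempty μ.ord.ToType := by
      rw [← Cardinal.mk_ne_zero_iff, Cardinal.mk_ord_toType]
      exact (Cardinal.aleph0_pos.trans_le (hκ.trans hμ)).ne'
    refine ⟨fun y => if h : y ∈ V then r ⟨y, h⟩ else Classical.arbitrary _, fun n => ?_⟩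
    refine lt_of_le_of_lt ?_ (hIic n)
    refine Cardinal.mk_le_of_injective (f := fun y : {y ∈ V |
      (if h : y ∈ V then r ⟨y, h⟩ else Classical.arbitrary (μ.ord.ToType)) ≤ n} =>
      (⟨r ⟨y.1, y.2.1⟩, ?_⟩ : Iic n)) ?_
    · have h3 := y.2.2
      rw [dif_pos y.2.1] at h3
      exact h3
    · intro y y' hyy
      have h3 := r.injective (congrArg Subtype.val hyy)
      have h4 : (y : Λ) = y' := congrArg (fun z : V => (z : Λ)) h3
      exact Subtype.ext h4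
  let g : Λ → μ.ord.ToType := fun x => v (E x)
  let N : Set Λ := {y | ∀ n, y ∉ π.F {x | g x = n}}
  have hex : ∀ y, ∃ n : μ.ord.ToType, y ∉ N →
      y ∈ π.F {x | g x = n} ∧ ∀ m, y ∈ π.F {x | g x = m} → n ≤ m := by
    intro y
    by_cases hy : y ∈ N
    · exact ⟨v y, fun h => (h hy).elim⟩
    · have h1 : {n | y ∈ π.F {x | g x = n}}.Nonempty := by
        by_contra h2
        rw [not_nonempty_iff_eq_empty] at h2
        exact hy fun n hn => (h2 ▸ (show n ∈ {n | y ∈ π.F {x | g x = n}} from hn) :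
          n ∈ (∅ : Set (μ.ord.ToType)))
      exact ⟨(wellFounded_lt (α := μ.ord.ToType)).min _ h1, fun _ =>
        ⟨(wellFounded_lt (α := μ.ord.ToType)).min_mem _ h1, fun m hm =>
          not_lt.1 ((wellFounded_lt (α := μ.ord.ToType)).not_lt_min _ hm)⟩⟩
  choose g' hg' using hex
  have hNF : ∀ n y, y ∈ π.F {x | g x = n} → y ∉ N := fun n y hy h => h n hy
  have hb : ∀ Z : μ.ord.ToType → Set Λ, (∀ m, Sm κ (Z m)) →
      (∀ m, ∀ y ∈ Z m, g' y = m ∧ y ∉ N ∧ y ∈ V) → #(π.G (V ∩ N ∪ ⋃ m, Z m)) ≤ μ := by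
    intro Z hZ hZ'
    refine card_of_trace hκ hμ hK g fun n => hG _ ?_ ?_
    · rintro y ⟨hy | hy, -⟩
      · exact hy.1
      · obtain ⟨m, hm⟩ := mem_iUnion.1 hy
        exact (hZ' m y hm).2.2
    refine lt_of_le_of_lt (Cardinal.mk_le_mk_of_subset (t := ⋃ m : Iic n, Z m.1) ?_) ?_
    · rintro y ⟨hy | hy, hyF⟩
      · exact (hNF n y hyF hy.2).elim
      · obtain ⟨m, hm⟩ := mem_iUnion.1 hy
        have h1 := (hg' y (hZ' m y hm).2.1).2 n hyF
        rw [(hZ' m y hm).1] at h1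
        exact mem_iUnion.2 ⟨⟨m, h1⟩, hm⟩
    · refine (Cardinal.mk_iUnion_le _).trans_lt ?_
      refine (mul_le_mul' le_rfl (ciSup_le' fun m : Iic n => (hZ m.1).le)).trans_lt
        (Cardinal.mul_lt_of_lt (hκ.trans hμ) (hIic n) hlt)
  have h1 := few_down_local hκ hμ (fun y hy => (hg' y hy).1) hb hd (fun Y hY => (hE Y hY).1)
    (fun Y hY => (hS Y hY).1)
  let Q : Set Λ := {y ∈ V | v y ≤ g' y}
  have hQ : #(π.G Q) ≤ μ := by
    refine card_of_trace hκ hμ hK g fun n => hG _ (fun y hy => hy.1.1)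
      (lt_of_le_of_lt (Cardinal.mk_le_mk_of_subset ?_) (hv n))
    rintro y ⟨⟨hy, hyv⟩, hyF⟩
    exact ⟨hy, hyv.trans ((hg' y (hNF n y hyF)).2 n hyF)⟩
  have h2 := few_meet hκ hμ hd hQ
  apply hSc
  refine (Cardinal.mk_le_mk_of_subset (t := {Y ∈ S | ¬ Sm κ {x ∈ Y | g' (E x) < g x}} ∪
    {Y ∈ S | (Y ∩ π.G Q).Nonempty}) ?_).trans ((Cardinal.mk_union_le _ _).trans
    ((add_le_add h1 h2).trans (Cardinal.add_eq_self (hκ.trans hμ)).le))
  intro Y hY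
  by_cases h3 : Sm κ {x ∈ Y | g' (E x) < g x}
  · refine Or.inr ⟨hY, ?_⟩
    by_contra h4
    have h5 := (hE Y hY).1.side' hκ V
    have h6 := (hE Y hY).1.side' hκ Q
    refine not_small_of (hS Y hY).2 (sm_mono ?_ (sm_union hκ h3 (sm_union hκ h5 h6)))
    intro x hx
    have h7 : x ∉ π.G Q := fun h => h4 ⟨x, hx, h⟩
    have h8 : x ∈ π.G V := (hS Y hY).1 hx
    by_cases h9 : g' (E x) < g x
    · exact Or.inl ⟨hx, h9⟩
    · by_cases h10 : E x ∈ V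
      · refine Or.inr (Or.inr ⟨hx, fun h => h7 (h.2 ⟨h10, not_lt.1 h9⟩)⟩)
      · exact Or.inr (Or.inl ⟨hx, fun h => h10 (h.1 h8)⟩)
  · exact Or.inl ⟨hY, h3⟩

end

variable {κ : Cardinal.{u}} {Λ Λ' : Type u} {hκ : ℵ₀ ≤ κ}

/-- Isomorphisms which lower the cardinality of a set. -/
theorem exists_nontrivial (φ : Quo κ hκ Λ ≃o Quo κ hκ Λ') (A : Set Λ) (B : Set Λ')
    (hB : φ (cls hκ A) = cls hκ B) (hA : κ < #A) (hAB : #B < #A) : ∃ C ⊆ A, #C = κ ∧ ¬ IsTrivialIso φ C := by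
  by_contra hcon
  push Not at hcon
  have : Fact (ℵ₀ ≤ κ) := ⟨hκ⟩
  obtain ⟨F, G, ρ, hF, hG, hρF, hρG⟩ := exists_swap φ
  let μ : Cardinal.{u} := max κ #B
  have hμ : κ ≤ μ := le_max_left _ _
  let V : Set (Λ ⊕ Λ') := Sum.inr '' B
  have hV : #V ≤ μ := Cardinal.mk_image_le.trans (le_max_right _ _)
  have h1 : ρ.G V ⊆ Sum.inl '' G B ∪ Sum.inr '' F ∅ := by
    rw [hρG]
    have h2 : (Sum.inr ⁻¹' V : Set Λ') = B := Set.preimage_image_eq _ Sum.inr_injective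
    have h3 : (Sum.inl ⁻¹' V : Set Λ) = ∅ := by
      ext x
      simp only [mem_preimage, mem_empty_iff_false, iff_false]
      rintro ⟨y, hy, hxy⟩
      cases hxy
    rw [swap, h2, h3]
  have h2 : Sum.inl '' G B ⊆ ρ.G V := by
    rw [hρG]
    have h2 : (Sum.inr ⁻¹' V : Set Λ') = B := Set.preimage_image_eq _ Sum.inr_injective
    rw [swap, h2]
    exact subset_union_left
  have h3 : cls hκ (G B) = cls hκ A := by
    rw [← hG, ← hB, φ.symm_apply_apply]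
  have h4 := cls_eq_iff.1 h3
  have h5 : Sm κ (F ∅) := by
    have h6 : Sm κ (ρ.F ∅) := (ρ.small_iff hκ ∅).1 sm_empty
    rw [hρF, sm_val_sum hκ, swap_inr] at h6
    exact h6.2
  have h6 : #(ρ.G V) ≤ μ := by
    refine card_G_local hκ μ hμ V (fun Y hY hYc => ?_) hV
    -- the part of `Y` in `A`
    let C : Set Λ := {x ∈ A | Sum.inl x ∈ Y}
    have h7 : Sm κ (Y \ Sum.inl '' C : Set (Λ ⊕ Λ')) := by
      refine sm_mono (t := Sum.inl '' (G B \ A) ∪ Sum.inr '' F ∅) ?_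
        (sm_union hκ (sm_image _ h4.1) (sm_image _ h5))
      rintro z ⟨hz, hz'⟩
      rcases h1 (hY hz) with ⟨x, hx, rfl⟩ | h
      · refine Or.inl ⟨x, ⟨hx, fun hxA => hz' ⟨x, ⟨hxA, hz⟩, rfl⟩⟩, rfl⟩
      · exact Or.inr h
    have h8 : ¬ Sm κ (Sum.inl '' C : Set (Λ ⊕ Λ')) := by
      intro h
      refine not_small_of hYc (sm_mono ?_ (sm_union hκ h7 h))
      intro z hz
      by_cases h9 : z ∈ Sum.inl '' C
      · exact Or.inr h9
      · exact Or.inl ⟨hz, h9⟩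
    have h9 : #C = κ := by
      refine le_antisymm ?_ ?_
      · have h10 : #(Sum.inl '' C : Set (Λ ⊕ Λ')) = #C := Cardinal.mk_image_eq Sum.inl_injective
        rw [← h10, ← hYc]
        refine Cardinal.mk_le_mk_of_subset ?_
        rintro _ ⟨x, hx, rfl⟩
        exact hx.2
      · have h10 : #(Sum.inl '' C : Set (Λ ⊕ Λ')) = #C := Cardinal.mk_image_eq Sum.inl_injective
        rw [← h10]
        exact not_lt.1 h8
    obtain ⟨s, hs⟩ := tr_of_trivialIso hF hG hρF (hcon C (fun x hx => hx.1) h9)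
    obtain ⟨s', hs'⟩ := hs.glue hκ (good_of_small (e := id) hκ h7)
    refine ⟨s', hs'.mono fun z hz => ?_⟩
    by_cases h11 : z ∈ Sum.inl '' C
    · exact Or.inl h11
    · exact Or.inr ⟨hz, h11⟩
  have h7 : #A ≤ μ := by
    refine Pool.Agent.Y678.AU.card_al hκ hμ h4.2 ?_
    have h8 : #(Sum.inl '' G B : Set (Λ ⊕ Λ')) = #(G B) :=
      Cardinal.mk_image_eq Sum.inl_injective
    rw [← h8]
    exact (Cardinal.mk_le_mk_of_subset h2).trans h6
  exact not_lt.2 h7 (max_lt hA hAB)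

end Pool.Agent.Y678.AI
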