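import Pool.Agent.Y678.AI.Main
import Pool.Agent.Y678.AU.All

/-!
# Isomorphisms which are trivial on all sets of size `κ` are trivial
-/

set_option autoImplicit false
set_option linter.unusedSectionVars false
set_option linter.unusedVariables false
set_option linter.style.haveILetI false

universe u

namespace Pool.Agent.Y678.AI

open Set
open Cardinal hiding univ
open Pool.Agent.Y678.AU
open Pool.Agent.W869.AV hiding few_meet card_of_trace few_down exists_many card_G card_F card_union card_al exists_split few_up few_exact few_members tr_univ tr_of_card card_G_local exists_nontrivial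

variable {κ : Cardinal.{u}} {Λ Λ' : Type u} {hκ : ℵ₀ ≤ κ} [Fact (ℵ₀ ≤ κ)]

theorem inr_pre_inl (A : Set Λ) : (Sum.inr ⁻¹' (Sum.inl '' A) : Set Λ') = ∅ := by
  ext y
  simp only [mem_preimage, mem_empty_iff_false, iff_false]
  rintro ⟨x, -, hx⟩
  cases hx

section

variable {φ : Quo κ hκ Λ ≃o Quo κ hκ Λ'} {F : Set Λ → Set Λ'} {G : Set Λ' → Set Λ}
  {ρ : Aut κ (Λ ⊕ Λ')}

theorem sm_G_empty (hκ : ℵ₀ ≤ κ) (hρG : ρ.G = swap F G) : Sm κ (G ∅) := by
  have h1 : Sm κ (ρ.G ∅) := by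
    rw [ρ.small_iff hκ]
    exact (ρ.FG ∅).small hκ sm_empty
  rw [hρG, sm_val_sum hκ, swap_inl] at h1
  exact h1.1

theorem swap_image_inl (A : Set Λ) :
    swap F G (Sum.inl '' A) = Sum.inl '' G ∅ ∪ Sum.inr '' F A := by
  rw [swap, inr_pre_inl, Set.preimage_image_eq _ Sum.inl_injective]

/-- The automorphism of the sum is trivial on all sets of size `κ`. -/
theorem loc_swap (hF : ∀ A, φ (cls hκ A) = cls hκ (F A))
    (hG : ∀ B, φ.symm (cls hκ B) = cls hκ (G B)) (hρF : ρ.F = swap F G) (hρG : ρ.G = swap F G)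
    (h : ∀ C : Set Λ, #C = κ → IsTrivialIso φ C) : Loc ρ := by
  have hl : ∀ C : Set Λ, #C ≤ κ → Tr ρ (Sum.inl '' C) := by
    intro C hC
    rcases hC.lt_or_eq with h1 | h1
    · exact ⟨id, good_of_small hκ (sm_image _ h1)⟩
    · exact tr_of_trivialIso hF hG hρF (h C h1)
  have hr : ∀ D : Set Λ', #D ≤ κ → Tr ρ (Sum.inr '' D) := by
    intro D hD
    have h1 : φ (cls hκ (G D)) = cls hκ D := by
      rw [← hG, φ.apply_symm_apply]
    have h2 : #(G D) ≤ κ := by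
      by_contra hcon
      have h3 : κ < #(G D) := not_le.1 hcon
      obtain ⟨C', -, hC', hn⟩ := exists_nontrivial φ (G D) D h1 h3 (hD.trans_lt h3)
      exact hn (h C' hC')
    obtain ⟨s, hs⟩ := hl _ h2
    obtain ⟨R, hRC, hRi, hRs⟩ := exists_inj hκ hs
    classical
    obtain ⟨s', hs'⟩ : ∃ s' : Λ ⊕ Λ' → Λ ⊕ Λ', ∀ x ∈ R, s' (s x) = x := by
      refine ⟨fun y => if hy : ∃ x ∈ R, s x = y then hy.choose else y, fun x hx => ?_⟩
      have h3 : ∃ x' ∈ R, s x' = s x := ⟨x, hx, rfl⟩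
      show (if hy : ∃ x' ∈ R, s x' = s x then hy.choose else s x) = x
      rw [dif_pos h3]
      exact hRi h3.choose_spec.1 hx h3.choose_spec.2
    have h3 := (hs.mono hRC).symm hκ hs'
    have h4 : Good ρ s' (s '' R) := by
      intro A hA
      have h5 := h3 A hA
      have h6 : (ρ.symm hκ).F A = ρ.F A := by
        show ρ.G A = ρ.F A
        rw [hρG, hρF]
      rw [h6] at h5
      exact h5
    have h5 : Al κ (Sum.inr '' D) (s '' R) := by
      have h6 : Al κ D (F (G D)) := by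
        have : cls hκ (F (G D)) = cls hκ D := by rw [← hF, h1]
        exact (cls_eq_iff.1 this).2
      have h7 : Al κ (Sum.inr '' D : Set (Λ ⊕ Λ')) (ρ.F (Sum.inl '' G D)) := by
        rw [hρF, swap_image_inl]
        refine sm_mono ?_ (sm_image Sum.inr h6)
        rintro _ ⟨⟨y, hy, rfl⟩, hy'⟩
        exact ⟨y, ⟨hy, fun h8 => hy' (Or.inr ⟨y, h8, rfl⟩)⟩, rfl⟩
      have h8 : Al κ (s '' (Sum.inl '' G D)) (s '' R) := by
        refine sm_mono ?_ (sm_image s hRs)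
        rintro _ ⟨⟨x, hx, rfl⟩, hx'⟩
        exact ⟨x, ⟨hx, fun h9 => hx' ⟨x, h9, rfl⟩⟩, rfl⟩
      exact (h7.trans hκ (hs _ subset_rfl).1).trans hκ h8
    refine Tr.of_remove hκ (N := Sum.inr '' D \ s '' R) ⟨s', h4.mono ?_⟩
      ⟨id, good_of_small hκ h5⟩
    rintro x ⟨hx, hx'⟩
    by_contra h9
    exact hx' ⟨hx, h9⟩
  intro Y hY
  obtain ⟨e, he⟩ := hl (Sum.inl ⁻¹' Y)
    ((Cardinal.mk_preimage_of_injective _ _ Sum.inl_injective).trans hY.le)
  obtain ⟨e', he'⟩ := hr (Sum.inr ⁻¹' Y)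
    ((Cardinal.mk_preimage_of_injective _ _ Sum.inr_injective).trans hY.le)
  obtain ⟨e'', he''⟩ := he.glue hκ he'
  refine ⟨e'', he''.mono ?_⟩
  rintro (x | x) hx
  · exact Or.inl ⟨x, hx, rfl⟩
  · exact Or.inr ⟨x, hx, rfl⟩

theorem trivialIso_of_tr (hF : ∀ A, φ (cls hκ A) = cls hκ (F A)) (hρF : ρ.F = swap F G)
    (hρG : ρ.G = swap F G) {A : Set Λ} (h : Tr ρ (Sum.inl '' A)) : IsTrivialIso φ A := by
  classical
  obtain ⟨s, hs⟩ := h
  obtain ⟨R, hRA, hRi, hRs⟩ := exists_inj hκ hs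
  have hG0 : Sm κ (G ∅) := sm_G_empty hκ hρG
  have hFA : ρ.F (Sum.inl '' A) = Sum.inl '' G ∅ ∪ Sum.inr '' F A := by
    rw [hρF, swap_image_inl]
  let R' : Set (Λ ⊕ Λ') := {z ∈ R | ∃ y ∈ F A, s z = Sum.inr y}
  have hR' : Sm κ (R \ R' : Set (Λ ⊕ Λ')) := by
    refine hs.small hκ (fun z hz => hRA hz.1) ?_
    have h1 : Sm κ (s '' (Sum.inl '' A) \ ρ.F (Sum.inl '' A) : Set (Λ ⊕ Λ')) :=
      (hs _ subset_rfl).2
    refine sm_mono ?_ (sm_union hκ h1 (sm_image Sum.inl hG0))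
    rintro _ ⟨z, ⟨hz, hz'⟩, rfl⟩
    by_cases h2 : s z ∈ ρ.F (Sum.inl '' A)
    · have h3 := h2
      rw [hFA] at h3
      rcases h3 with h3 | ⟨y, hy, hyz⟩
      · exact Or.inr h3
      · exact (hz' ⟨hz, y, hy, hyz.symm⟩).elim
    · exact Or.inl ⟨⟨z, hRA hz, rfl⟩, h2⟩
  have hAR' : Sm κ (Sum.inl '' A \ R' : Set (Λ ⊕ Λ')) := by
    refine sm_mono ?_ (sm_union hκ hRs hR')
    rintro z ⟨hz, hz'⟩
    by_cases h1 : z ∈ R
    · exact Or.inr ⟨h1, hz'⟩
    · exact Or.inl ⟨hz, h1⟩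
  let C' : Set Λ := {x ∈ A | Sum.inl x ∈ R'}
  let D' : Set Λ' := {y ∈ F A | ∃ x ∈ C', s (Sum.inl x) = Sum.inr y}
  have hAC : AlmostSub κ A C' := by
    have h1 : #(A \ C' : Set Λ) = #(Sum.inl '' (A \ C') : Set (Λ ⊕ Λ')) :=
      (Cardinal.mk_image_eq Sum.inl_injective).symm
    rw [AlmostSub, h1]
    refine sm_mono ?_ hAR'
    rintro _ ⟨x, ⟨hx, hx'⟩, rfl⟩
    exact ⟨⟨x, hx, rfl⟩, fun h2 => hx' ⟨hx, h2⟩⟩
  have hFD : AlmostSub κ (F A) D' := by
    have h1 : #(F A \ D' : Set Λ') = #(Sum.inr '' (F A \ D') : Set (Λ ⊕ Λ')) :=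
      (Cardinal.mk_image_eq Sum.inr_injective).symm
    rw [AlmostSub, h1]
    have h2 : Sm κ (ρ.F (Sum.inl '' A) \ s '' (Sum.inl '' A) : Set (Λ ⊕ Λ')) :=
      (hs _ subset_rfl).1
    refine sm_mono ?_ (sm_union hκ h2 (sm_image s hAR'))
    rintro _ ⟨y, ⟨hy, hy'⟩, rfl⟩
    by_cases h3 : Sum.inr y ∈ s '' (Sum.inl '' A)
    · obtain ⟨z, hz, hzy⟩ := h3
      refine Or.inr ⟨z, ⟨hz, fun h4 => ?_⟩, hzy⟩
      obtain ⟨x, hx, rfl⟩ := hz
      exact hy' ⟨hy, x, ⟨hx, h4⟩, hzy⟩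
    · refine Or.inl ⟨?_, h3⟩
      rw [hFA]
      exact Or.inr ⟨y, hy, rfl⟩
  have hm : ∀ x : C', ∃ y : D', s (Sum.inl x.1) = Sum.inr y.1 := by
    intro x
    obtain ⟨y, hy, hxy⟩ := x.2.2.2
    exact ⟨⟨y, hy, x.1, x.2, hxy⟩, hxy⟩
  choose m hm using hm
  have hmb : Function.Bijective m := by
    constructor
    · intro x x' hxx
      have h1 : s (Sum.inl x.1) = s (Sum.inl x'.1) := by rw [hm, hm, hxx]
      have h2 : (Sum.inl x.1 : Λ ⊕ Λ') = Sum.inl x'.1 := hRi x.2.2.1 x'.2.2.1 h1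
      exact Subtype.ext (Sum.inl_injective h2)
    · intro y
      obtain ⟨x, hx, hxy⟩ := y.2.2
      refine ⟨⟨x, hx⟩, Subtype.ext ?_⟩
      have h1 := hm ⟨x, hx⟩
      rw [hxy] at h1
      exact (Sum.inr_injective h1).symm
  refine ⟨F A, hF A, C', fun x hx => hx.1, hAC, D', fun y hy => hy.1, hFD,
    (Equiv.ofBijective m hmb).symm, fun X => ?_⟩
  have hWA : Sum.inl '' (Subtype.val '' X) ⊆ (Sum.inl '' A : Set (Λ ⊕ Λ')) := by
    rintro _ ⟨_, ⟨x, -, rfl⟩, rfl⟩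
    exact ⟨x.1, x.2.1, rfl⟩
  have h1 := hs _ hWA
  rw [al_sum hκ, al_sum hκ, hρF, swap_inr, Set.preimage_image_eq _ Sum.inl_injective] at h1
  have h2 : Sum.inr ⁻¹' (s '' (Sum.inl '' (Subtype.val '' X))) =
      Subtype.val '' ((Equiv.ofBijective m hmb).symm ⁻¹' X) := by
    ext y
    constructor
    · rintro ⟨_, ⟨_, ⟨x, hx, rfl⟩, rfl⟩, hxy⟩
      have h3 : m x = ⟨y, (m x).2.1 |> fun h4 => by
        have h5 := hm x
        rw [hxy] at h5
        rw [Sum.inr_injective h5]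
        exact (m x).2⟩ := by
        have h5 := hm x
        rw [hxy] at h5
        exact Subtype.ext (Sum.inr_injective h5).symm
      refine ⟨m x, ?_, ?_⟩
      · show (Equiv.ofBijective m hmb).symm (m x) ∈ X
        have h6 : (Equiv.ofBijective m hmb).symm (m x) = x :=
          (Equiv.ofBijective m hmb).symm_apply_apply x
        rw [h6]
        exact hx
      · have h5 := hm x
        rw [hxy] at h5
        exact (Sum.inr_injective h5).symm
    · rintro ⟨z, hz, rfl⟩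
      refine ⟨Sum.inl ((Equiv.ofBijective m hmb).symm z).1, ⟨_, ⟨_, hz, rfl⟩, rfl⟩, ?_⟩
      rw [hm]
      have h6 : m ((Equiv.ofBijective m hmb).symm z) = z :=
        (Equiv.ofBijective m hmb).apply_symm_apply z
      rw [h6]
  rw [h2] at h1
  rw [hF, cls_eq_iff]
  exact ⟨h1.1.2, h1.2.2⟩

end

/-- Isomorphisms which are trivial on all sets of size `κ` are trivial on all sets `A` such that
the inaccessible cardinals `c` with `κ < c ≤ #A` have the tree property. -/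
theorem trivialIso_all (φ : Quo κ hκ Λ ≃o Quo κ hκ Λ')
    (h : ∀ C : Set Λ, #C = κ → IsTrivialIso φ C) (A : Set Λ)
    (hA : ∀ c, κ < c → c ≤ #A → c.IsInaccessible → TreeProp c) : IsTrivialIso φ A := by
  obtain ⟨F, G, ρ, hF, hG, hρF, hρG⟩ := exists_swap φ
  refine trivialIso_of_tr hF hρF hρG (tr_all hκ (loc_swap hF hG hρF hρG h) #A (Sum.inl '' A)
    (Cardinal.mk_image_eq Sum.inl_injective) hA)

end Pool.Agent.Y678.AI
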